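import Mathlib
import Pool.Agent.H379R3.CDQ.Stmts

set_option autoImplicit false

/-! Project CDQ, task F2: Artin-Schreier theory. -/

namespace Pool.Agent.H335R3.CDQ

open Pool.Agent.H379R3.CDQ

theorem dd_map {G M M' : Type} [AddCommGroup M] [AddCommGroup M'] (φ : M →+ M') {n : ℕ}
    (h : (Fin n → G) → M) (v : Fin (n + 1) → G) : dd (fun u => φ (h u)) v = φ (dd h v) := by
  unfold dd
  rw [map_sum]
  apply Finset.sum_congr rfl
  intro i _
  rw [map_zsmul]

theorem dd_sub {G M : Type} [AddCommGroup M] {n : ℕ}
    (h h' : (Fin n → G) → M) (v : Fin (n + 1) → G) :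
    dd (fun u => h u - h' u) v = dd h v - dd h' v := by
  unfold dd
  rw [← Finset.sum_sub_distrib]
  apply Finset.sum_congr rfl
  intro i _
  rw [zsmul_sub]

theorem lc_sum {X M ι : Type} [TopologicalSpace X] [AddCommGroup M] (s : Finset ι)
    (F : ι → X → M) (hF : ∀ i, IsLocallyConstant (F i)) :
    IsLocallyConstant (fun x => ∑ i ∈ s, F i x) := by
  classical
  induction s using Finset.induction_on with
  | empty =>
    simp only [Finset.sum_empty]
    exact IsLocallyConstant.const 0
  | insert a s ha ih =>
    simp only [Finset.sum_insert ha]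
    exact (hF a).add ih

theorem lc_dd {G M : Type} [TopologicalSpace G] [AddCommGroup M] {n : ℕ}
    (h : (Fin n → G) → M) (hh : IsLocallyConstant h) :
    IsLocallyConstant (dd h : (Fin (n + 1) → G) → M) := by
  unfold dd
  apply lc_sum
  intro i
  have h1 : Continuous (fun v : Fin (n + 1) → G => fun j => v (i.succAbove j)) := by fun_prop
  exact (hh.comp_continuous h1).comp (fun m => (-1 : ℤ) ^ (i : ℕ) • m)

theorem eqv_dd {G M : Type} [Group G] [AddCommGroup M] [DistribMulAction G M] {n : ℕ}
    (h : (Fin n → G) → M) (hh : Eqv h) : Eqv (dd h : (Fin (n + 1) → G) → M) := by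
  intro g v
  unfold dd
  rw [Finset.smul_sum]
  apply Finset.sum_congr rfl
  intro i _
  rw [hh g (fun j => v (i.succAbove j)), smul_comm]

theorem taskF2 : TaskF2 := by
  intro hDD hLift hV k _ _ n hn f hf hinv hcoc
  classical
  have hchar : CharP (SeparableClosure k) 2 :=
    charP_of_injective_algebraMap (algebraMap k (SeparableClosure k)).injective 2
  -- the inclusion of `F_2`
  let ι : ZMod 2 →+* SeparableClosure k := ZMod.castHom (dvd_refl 2) (SeparableClosure k)
  have hιinj : Function.Injective ι := ι.injective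
  have hιg : ∀ (g : GG k) (c : ZMod 2), g (ι c) = ι c := by
    intro g c
    have h1 : (g : SeparableClosure k →+* SeparableClosure k).comp ι = ι := Subsingleton.elim _ _
    exact DFunLike.congr_fun h1 c
  have h01 : ∀ c : ZMod 2, c ^ 2 + c = 0 := by decide
  have htwo : (2 : SeparableClosure k) = 0 := by
    have := CharP.cast_eq_zero (SeparableClosure k) 2
    exact_mod_cast this
  -- the additive map `x -> x ^ 2 + x`
  let π : SeparableClosure k →+ SeparableClosure k :=
    { toFun := fun x => x ^ 2 + x
      map_zero' := by ring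
      map_add' := fun x y => by linear_combination (x * y) * htwo }
  have hπ : ∀ x, π x = x ^ 2 + x := fun x => rfl
  have hπs : Function.Surjective π := by
    intro y
    have hdeg : (Polynomial.X ^ 2 + Polynomial.X - Polynomial.C y :
        Polynomial (SeparableClosure k)).degree = 2 := by
      compute_degree!
    have hsep : (Polynomial.X ^ 2 + Polynomial.X - Polynomial.C y :
        Polynomial (SeparableClosure k)).Separable := by
      rw [Polynomial.separable_def]
      have hder : Polynomial.derivative (Polynomial.X ^ 2 + Polynomial.X - Polynomial.C y :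
          Polynomial (SeparableClosure k)) = 1 := by
        simp only [Polynomial.derivative_sub, Polynomial.derivative_add,
          Polynomial.derivative_X_pow, Polynomial.derivative_X, Polynomial.derivative_C]
        have h2 : ((2 : ℕ) : SeparableClosure k) = 0 := by exact_mod_cast htwo
        rw [h2, Polynomial.C_0]
        ring
      rw [hder]
      exact isCoprime_one_right
    obtain ⟨x, hx⟩ := IsSepClosed.exists_root _ (by rw [hdeg]; norm_num) hsep
    refine ⟨x, ?_⟩
    rw [Polynomial.IsRoot.def] at hx
    simp only [Polynomial.eval_sub, Polynomial.eval_add, Polynomial.eval_pow, Polynomial.eval_X,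
      Polynomial.eval_C] at hx
    rw [hπ]
    exact sub_eq_zero.mp hx
  have hπg : ∀ (g : GG k) (x : SeparableClosure k), π (g • x) = g • π x := by
    intro g x
    rw [hπ, hπ, smul_add, smul_pow']
  have hdisc : ∀ x : SeparableClosure k,
      IsOpen (MulAction.stabilizer (GG k) x : Set (GG k)) := fun x =>
    stabilizer_isOpen_of_isIntegral (K := k) (L := SeparableClosure k) x
  obtain ⟨m, rfl⟩ : ∃ m, n = m + 1 := ⟨n - 1, by omega⟩
  obtain ⟨l, rfl⟩ : ∃ l, m = l + 1 := ⟨m - 1, by omega⟩
  -- first step
  obtain ⟨h, hlc, heq, hdd⟩ := hV k (l + 1 + 1) (by omega) (fun v => ι (f v)) (hf.comp ι)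
    (by
      intro g v
      change ι (f fun i => g * v i) = g (ι (f v))
      rw [hinv, hιg])
    (by
      intro v
      have e1 := dd_map ι.toAddMonoidHom f v
      rw [hcoc v, map_zero] at e1
      exact e1)
  -- second step
  obtain ⟨w, wlc, weq, wdd⟩ := hV k (l + 1) (by omega) (fun v => π (h v)) (hlc.comp π)
    (by
      intro g v
      beta_reduce
      rw [heq g v, hπg])
    (by
      intro v
      rw [dd_map π h v, ← hdd v, hπ, ← map_pow, ← map_add, h01, map_zero])
  -- lifting
  obtain ⟨w', w'lc, w'eq, w'π⟩ := hLift (GG k) (SeparableClosure k) (SeparableClosure k) hdisc hdisc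
    π hπs hπg l w wlc weq
  obtain ⟨h1, hh1⟩ : ∃ h1 : (Fin (l + 1 + 1) → GG k) → SeparableClosure k,
      h1 = fun v => h v - dd w' v := ⟨_, rfl⟩
  have h1lc : IsLocallyConstant h1 := by
    rw [hh1]
    exact hlc.sub (lc_dd w' w'lc)
  have h1eq : Eqv h1 := by
    intro g v
    rw [hh1]
    simp only
    rw [heq g v, eqv_dd w' w'eq g v, smul_sub]
  have h1π : ∀ v, π (h1 v) = 0 := by
    intro v
    rw [hh1]
    simp only
    rw [map_sub, wdd v, ← dd_map π w' v, sub_eq_zero]
    congr 1
    funext u
    exact (w'π u).symm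
  have h1dd : ∀ v, dd h1 v = ι (f v) := by
    intro v
    rw [hh1, dd_sub h (dd w') v, hDD (GG k) (SeparableClosure k) (l + 1) w' v, sub_zero]
    exact (hdd v).symm
  have h1v : ∀ v, h1 v = 0 ∨ h1 v = 1 := by
    intro v
    have h2 := h1π v
    rw [hπ] at h2
    have h3 : h1 v * (h1 v - 1) = 0 := by linear_combination h2 - (h1 v) * htwo
    rcases mul_eq_zero.mp h3 with h4 | h4
    · exact Or.inl h4
    · exact Or.inr (sub_eq_zero.mp h4)
  -- the cochain with values in `F_2`
  let q : SeparableClosure k → ZMod 2 := fun x => if x = 0 then 0 else 1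
  have hq : ∀ v, ι (q (h1 v)) = h1 v := by
    intro v
    rcases h1v v with h2 | h2
    · rw [h2]
      simp [q]
    · rw [h2]
      simp [q]
  refine ⟨fun v => q (h1 v), h1lc.comp q, ?_, ?_⟩
  · intro g v
    apply hιinj
    simp only
    rw [hq, hq, h1eq g v]
    change g (h1 v) = h1 v
    rw [← hq v]
    exact hιg g _
  · intro v
    apply hιinj
    have h2 := dd_map ι.toAddMonoidHom (fun v => q (h1 v)) v
    have h3 : (fun u => ι.toAddMonoidHom (q (h1 u))) = h1 := by
      funext u
      exact hq u
    rw [h3] at h2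
    rw [← h1dd v, h2]
    rfl

end Pool.Agent.H335R3.CDQ
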